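import Mathlib

/-!
[H21 LP ADEL]  If of any `t + 1` pairwise coprime numbers prime to `L` one is good then all numbers prime to some
`Q₀` are good.

Proof.  Suppose not (`hcon : ∀ Q₀ > 0, ∃ Q > 0, Q.Coprime Q₀ ∧ ¬ P Q`).  By induction on `n` there are `Q : Fin n → ℕ`
positive, coprime to `L`, pairwise coprime with `∀ i, ¬ P (Q i)`: for the step take `Q₀ = L * ∏ i, Q i` and
`Fin.snoc Q q` (or `Fin.cons q Q`) with the `q` given by `hcon`; `Nat.Coprime.coprime_mul_right_right`,
`Nat.Coprime.coprime_dvd_right` with `Finset.dvd_prod_of_mem`.  `n = t + 1` contradicts `hA`.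
-/

namespace Pool.Agent.H21.LP

open Finset

theorem adel (P : ℕ → Prop) (L t : ℕ) (hL : 0 < L)
    (hA : ∀ Q : Fin (t + 1) → ℕ, (∀ i, 0 < Q i) → (∀ i, Nat.Coprime (Q i) L) →
      (∀ i j, i ≠ j → Nat.Coprime (Q i) (Q j)) → ∃ i, P (Q i)) :
    ∃ Q₀ : ℕ, 0 < Q₀ ∧ ∀ Q : ℕ, 0 < Q → Nat.Coprime Q Q₀ → P Q := by
  by_contra hcon
  push Not at hcon
  have key : ∀ n : ℕ, ∃ Q : Fin n → ℕ, (∀ i, 0 < Q i) ∧ (∀ i, Nat.Coprime (Q i) L) ∧
      (∀ i j, i ≠ j → Nat.Coprime (Q i) (Q j)) ∧ ∀ i, ¬ P (Q i) := by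
    intro n
    induction n with
    | zero => exact ⟨fun i => i.elim0, fun i => i.elim0, fun i => i.elim0, fun i => i.elim0, fun i => i.elim0⟩
    | succ n ih =>
      obtain ⟨Q, h1, h2, h3, h4⟩ := ih
      obtain ⟨q, hq0, hqc, hqP⟩ := hcon (L * ∏ i, Q i)
        (Nat.mul_pos hL (Finset.prod_pos fun i _ => h1 i))
      have hqL : Nat.Coprime q L := Nat.Coprime.coprime_dvd_right (Dvd.intro _ rfl) hqc
      have hqQ : ∀ i, Nat.Coprime q (Q i) := fun i =>
        Nat.Coprime.coprime_dvd_right
          ((Finset.dvd_prod_of_mem Q (Finset.mem_univ i)).trans (Dvd.intro_left _ rfl)) hqc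
      refine ⟨Fin.cons q Q, ?_, ?_, ?_, ?_⟩
      · intro i
        refine Fin.cases ?_ (fun i => ?_) i
        · simpa using hq0
        · simpa using h1 i
      · intro i
        refine Fin.cases ?_ (fun i => ?_) i
        · simpa using hqL
        · simpa using h2 i
      · intro i j
        refine Fin.cases ?_ (fun i => ?_) i
        · refine Fin.cases ?_ (fun j => ?_) j
          · intro h
            exact absurd rfl h
          · intro _
            simpa using hqQ j
        · refine Fin.cases ?_ (fun j => ?_) j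
          · intro _
            simpa using (hqQ i).symm
          · intro h
            have hij : i ≠ j := fun e => h (by rw [e])
            simpa using h3 i j hij
      · intro i
        refine Fin.cases ?_ (fun i => ?_) i
        · simpa using hqP
        · simpa using h4 i
  obtain ⟨Q, h1, h2, h3, h4⟩ := key (t + 1)
  obtain ⟨i, hi⟩ := hA Q h1 h2 h3
  exact h4 i hi

end Pool.Agent.H21.LP
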