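import Mathlib

/-!
[H21 LP CRT]  Numbers `u` which are `1` modulo one modulus and `0` modulo everything else.

Proof.  Put `R = L * ∏ j ≠ i, Q j * ∏ p ≤ K prime, ¬ p ∣ Q i, p`.  `R` is coprime to `Q i` (products of numbers
coprime to `Q i`: `Nat.Coprime.mul_left`, `Nat.Coprime.prod_left`), so `a * Q i + b * R = 1` with integers `a`, `b`
(`Nat.isCoprime_iff_coprime`); take `u = b * R`, `u - 1 = - a * Q i`.
-/

namespace Pool.Agent.H21.LP

open Finset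

theorem crt_exists (L t : ℕ) (Q : Fin t → ℕ)
    (hQL : ∀ i, Nat.Coprime (Q i) L) (hQQ : ∀ i j, i ≠ j → Nat.Coprime (Q i) (Q j)) (K : ℕ) (i : Fin t) :
    ∃ u : ℤ, (Q i : ℤ) ∣ u - 1 ∧ (∀ j, j ≠ i → (Q j : ℤ) ∣ u) ∧ (L : ℤ) ∣ u ∧
      ∀ p : ℕ, p.Prime → p ≤ K → ¬ p ∣ Q i → (p : ℤ) ∣ u := by
  classical
  obtain ⟨R, hR⟩ : ∃ R : ℕ, R = L * (∏ j ∈ univ.erase i, Q j) *
      ∏ p ∈ (range (K + 1)).filter (fun p => p.Prime ∧ ¬ p ∣ Q i), p := ⟨_, rfl⟩
  have hcop : Nat.Coprime (Q i) R := by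
    rw [hR]
    refine Nat.Coprime.mul_right (Nat.Coprime.mul_right (hQL i) ?_) ?_
    · refine Nat.Coprime.prod_right fun j hj => hQQ i j ?_
      exact (Finset.ne_of_mem_erase hj).symm
    · refine Nat.Coprime.prod_right fun p hp => ?_
      have h1 := (Finset.mem_filter.1 hp).2
      exact (Nat.Coprime.symm ((Nat.Prime.coprime_iff_not_dvd h1.1).2 h1.2))
  obtain ⟨a, b, hab⟩ := Nat.isCoprime_iff_coprime.2 hcop
  refine ⟨b * (R : ℤ), ⟨-a, ?_⟩, ?_, ?_, ?_⟩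
  · linear_combination hab
  · intro j hj
    have h1 : Q j ∣ R := by
      rw [hR]
      exact Dvd.dvd.mul_right (Dvd.dvd.mul_left
        (Finset.dvd_prod_of_mem Q (Finset.mem_erase.2 ⟨hj, Finset.mem_univ j⟩)) _) _
    exact Dvd.dvd.mul_left (Int.natCast_dvd_natCast.2 h1) _
  · have h1 : L ∣ R := by
      rw [hR, mul_assoc]
      exact Nat.dvd_mul_right L _
    exact Dvd.dvd.mul_left (Int.natCast_dvd_natCast.2 h1) _
  · intro p hp hpK hpi
    have h1 : p ∣ R := by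
      rw [hR]
      exact Dvd.dvd.mul_left (Finset.dvd_prod_of_mem (fun p => p)
        (Finset.mem_filter.2 ⟨Finset.mem_range.2 (by omega), hp, hpi⟩)) _
    exact Dvd.dvd.mul_left (Int.natCast_dvd_natCast.2 h1) _

end Pool.Agent.H21.LP
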