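import Pool.Agent.H21.CG.Tree

/-!
MP_8923e7_nt, THEOREM LP (coarse exact prime tuples in prescribed residue classes).  Definitions.
`PP N b` (`Pool/Agent/H30/CP/BinsZ.lean`): `((N : ℤ) + b).toNat` is a prime.  `One`, `Ix`, `cell`, `Al`:
`Pool/Agent/H21/CG/Df.lean`, `Tree.lean`.
-/

namespace Pool.Agent.H21.LP

open Finset Pool.Agent.H30.CP Pool.Agent.H21.CG

/-- `N ≡ s₀ (mod L)`, `N ≡ s (mod Q)`, some `N + a₀`, `|a₀ - x 0| ≤ T`, `a₀ ≡ m 0 (mod Q)` is a prime, all primes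
`N + b` with `|b| ≤ D` have `L ∣ b` and (`b = a₀` or `b` is within `T` of some `x j`, `j ≥ 1`, and `≡ m j (mod Q)`),
and for one colour `i` the prime `N + a₀` has colour `i` and for each `j ≥ 1` some `N + b`, `|b - x j| ≤ T`,
`b ≡ m j (mod Q)`, is a prime of colour `i` -/
def IsoQ {r k : ℕ} (c : ℕ → Fin r) (L s₀ Q : ℕ) (s : ℤ) (m : Fin (k + 1) → ℤ) (T : ℕ)
    (x : Fin (k + 1) → ℤ) (D N : ℕ) : Prop :=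
  N ≡ s₀ [MOD L] ∧ (N : ℤ) ≡ s [ZMOD Q] ∧ ∃ (a₀ : ℤ) (i : Fin r), |a₀ - x 0| ≤ T ∧
    a₀ ≡ m 0 [ZMOD Q] ∧ PP N a₀ ∧ c ((N : ℤ) + a₀).toNat = i ∧
    (∀ b : ℤ, |b| ≤ D → PP N b → (L : ℤ) ∣ b ∧
      (b = a₀ ∨ ∃ j : Fin k, |b - x j.succ| ≤ T ∧ b ≡ m j.succ [ZMOD Q])) ∧
    ∀ j : Fin k, ∃ b : ℤ, |b - x j.succ| ≤ T ∧ b ≡ m j.succ [ZMOD Q] ∧ PP N b ∧
      c ((N : ℤ) + b).toNat = i

/-- no bound `T` works for all `x` -/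
def Bad {r k : ℕ} (c : ℕ → Fin r) (L s₀ Q : ℕ) (s : ℤ) (m : Fin (k + 1) → ℤ) : Prop :=
  ∀ T : ℕ, ∃ x : Fin (k + 1) → ℤ, ∃ D N0 : ℕ, ∀ N ≥ N0, ¬ IsoQ c L s₀ Q s m T x D N

/-- every class of shifts modulo `Q` is good -/
def Good {r : ℕ} (k : ℕ) (c : ℕ → Fin r) (L s₀ Q : ℕ) : Prop :=
  ∀ (s : ℤ) (m : Fin (k + 1) → ℤ), (∀ j, IsCoprime (s + m j) (Q : ℤ)) →
    ∃ T : ℕ, ∀ x : Fin (k + 1) → ℤ, ∃ (i : Fin r) (a : Fin (k + 1) → ℤ) (Ω : Finset ℤ),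
      Function.Injective a ∧ (∀ j, |a j - x j| ≤ T ∧ a j ≡ m j [ZMOD Q] ∧ a j ∈ Ω) ∧
      (∀ w ∈ Ω, (L : ℤ) ∣ w ∧
        (w = a 0 ∨ ∃ j : Fin k, |w - x j.succ| ≤ T ∧ w ≡ m j.succ [ZMOD Q])) ∧
      ∀ D : ℕ, {N : ℕ | N ≡ s₀ [MOD L] ∧ (N : ℤ) ≡ s [ZMOD Q] ∧
        (∀ j, c ((N : ℤ) + a j).toNat = i) ∧
        ∀ b : ℤ, |b| ≤ D → (((N : ℤ) + b).toNat.Prime ↔ b ∈ Ω)}.Infinite

end Pool.Agent.H21.LP
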