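import Pool.Agent.H21.LP.Df

/-!
[H21 LP EXT]  From the existence of `N` with `IsoQ` for all `x`, `D`, `N0` to one exact pattern for all `D`.

Proof: that of `iso_tuples` in `Pool/Agent/H21/CG/Main.lean` (copy it), with `IsoQ` in place of `Iso`: the extra
data `(N : ℤ) ≡ s [ZMOD Q]`, `a j ≡ m j [ZMOD Q]` and `w ≡ m j.succ [ZMOD Q]` for the elements `w` of the pattern
are carried along (put them into the predicate `Q D t N` of that proof; rename it, `Q` is the modulus here).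
-/

namespace Pool.Agent.H21.LP

open Finset Pool.Agent.H30.CP Pool.Agent.H21.CG

variable {r k : ℕ}

theorem ext_iso (c : ℕ → Fin r) (L s₀ Q : ℕ) (s : ℤ) (m : Fin (k + 1) → ℤ)
    (h : ∃ T : ℕ, ∀ x : Fin (k + 1) → ℤ, ∀ D N0 : ℕ, ∃ N ≥ N0, IsoQ c L s₀ Q s m T x D N) :
    ∃ T : ℕ, ∀ x : Fin (k + 1) → ℤ, ∃ (i : Fin r) (a : Fin (k + 1) → ℤ) (Ω : Finset ℤ),
      Function.Injective a ∧ (∀ j, |a j - x j| ≤ T ∧ a j ≡ m j [ZMOD Q] ∧ a j ∈ Ω) ∧
      (∀ w ∈ Ω, (L : ℤ) ∣ w ∧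
        (w = a 0 ∨ ∃ j : Fin k, |w - x j.succ| ≤ T ∧ w ≡ m j.succ [ZMOD Q])) ∧
      ∀ D : ℕ, {N : ℕ | N ≡ s₀ [MOD L] ∧ (N : ℤ) ≡ s [ZMOD Q] ∧
        (∀ j, c ((N : ℤ) + a j).toNat = i) ∧
        ∀ b : ℤ, |b| ≤ D → (((N : ℤ) + b).toNat.Prime ↔ b ∈ Ω)}.Infinite := by
  classical
  obtain ⟨T, hT⟩ := h
  refine ⟨T + (2 * T + 1) * (k + 1), fun x₀ => ?_⟩
  obtain ⟨x, hx1, _, hx3⟩ := sep_exists (k + 1) (2 * T + 1) (Nat.succ_pos k) (Nat.succ_pos _) x₀
  have hnear : ∀ (b : ℤ) (j : Fin (k + 1)), |b - x j| ≤ T →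
      |b - x₀ j| ≤ ((T + (2 * T + 1) * (k + 1) : ℕ) : ℤ) := by
    intro b j h1
    have h2 := hx1 j
    push_cast at h2 ⊢
    calc |b - x₀ j| = |(b - x j) + (x j - x₀ j)| := by congr 1; ring
      _ ≤ |b - x j| + |x j - x₀ j| := abs_add_le _ _
      _ ≤ T + (2 * T + 1) * (k + 1) := add_le_add h1 h2
  -- the window
  set U : Finset ℤ := univ.biUnion (fun j : Fin (k + 1) => Icc (x j - T) (x j + T)) with hU
  have hmemU : ∀ b : ℤ, b ∈ U ↔ ∃ j, |b - x j| ≤ T := by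
    intro b
    rw [hU, mem_biUnion]
    constructor
    · rintro ⟨j, _, hj⟩
      rw [mem_Icc] at hj
      exact ⟨j, abs_le.2 ⟨by linarith [hj.1], by linarith [hj.2]⟩⟩
    · rintro ⟨j, hj⟩
      have := abs_le.1 hj
      exact ⟨j, mem_univ _, mem_Icc.2 ⟨by linarith [this.1], by linarith [this.2]⟩⟩
  -- the possible patterns
  let R : ℕ → (Fin r × (Fin (k + 1) → {b // b ∈ U}) × {s // s ∈ U.powerset}) → ℕ → Prop :=
    fun D t N => N ≡ s₀ [MOD L] ∧ (N : ℤ) ≡ s [ZMOD Q] ∧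
      (∀ j, |(t.2.1 j : ℤ) - x j| ≤ T ∧ (t.2.1 j : ℤ) ≡ m j [ZMOD Q] ∧
      (t.2.1 j : ℤ) ∈ t.2.2.1 ∧
      c ((N : ℤ) + (t.2.1 j : ℤ)).toNat = t.1) ∧ (∀ w ∈ t.2.2.1, (L : ℤ) ∣ w ∧
        (w = (t.2.1 0 : ℤ) ∨ ∃ j : Fin k, |w - x j.succ| ≤ T ∧ w ≡ m j.succ [ZMOD Q])) ∧
      ∀ b : ℤ, |b| ≤ D → (PP N b ↔ b ∈ t.2.2.1)
  have hR : ∀ D : ℕ, ∃ t, {N : ℕ | R D t N}.Infinite := by
    intro D
    set D' : ℕ := D + ∑ b ∈ U, b.natAbs with hD'
    have hUD : ∀ b ∈ U, |b| ≤ D' := by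
      intro b hb
      have h1 : b.natAbs ≤ ∑ b ∈ U, b.natAbs :=
        Finset.single_le_sum (f := fun b : ℤ => b.natAbs) (fun _ _ => Nat.zero_le _) hb
      rw [Int.abs_eq_natAbs]
      have : b.natAbs ≤ D' := by omega
      exact_mod_cast this
    have hex : ∀ N0 : ℕ, ∃ N ≥ N0, ∃ t, R D t N := by
      intro N0
      obtain ⟨N, hN, hNc, hNs, a₀, i, h0, hm0, hp0, hc0, h1, h2⟩ := hT x D' N0
      choose a ha1 ham ha2 ha3 using h2
      set a' : Fin (k + 1) → ℤ := Fin.cons a₀ a with ha'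
      have ha1' : ∀ j, |a' j - x j| ≤ T := by
        intro j
        refine Fin.cases ?_ (fun j => ?_) j
        · rw [ha', Fin.cons_zero]
          exact h0
        · rw [ha', Fin.cons_succ]
          exact ha1 j
      have ham' : ∀ j, a' j ≡ m j [ZMOD Q] := by
        intro j
        refine Fin.cases ?_ (fun j => ?_) j
        · rw [ha', Fin.cons_zero]
          exact hm0
        · rw [ha', Fin.cons_succ]
          exact ham j
      have ha2' : ∀ j, PP N (a' j) := by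
        intro j
        refine Fin.cases ?_ (fun j => ?_) j
        · rw [ha', Fin.cons_zero]
          exact hp0
        · rw [ha', Fin.cons_succ]
          exact ha2 j
      have ha3' : ∀ j, c ((N : ℤ) + a' j).toNat = i := by
        intro j
        refine Fin.cases ?_ (fun j => ?_) j
        · rw [ha', Fin.cons_zero]
          exact hc0
        · rw [ha', Fin.cons_succ]
          exact ha3 j
      have haU : ∀ j, a' j ∈ U := fun j => (hmemU _).2 ⟨j, ha1' j⟩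
      refine ⟨N, hN, ⟨i, fun j => ⟨a' j, haU j⟩,
        ⟨U.filter (fun b => PP N b), mem_powerset.2 (filter_subset _ _)⟩⟩, hNc, hNs, ?_, ?_, ?_⟩
      · intro j
        exact ⟨ha1' j, ham' j, mem_filter.2 ⟨haU j, ha2' j⟩, ha3' j⟩
      · intro w hw
        have hw' := mem_filter.1 hw
        have h3 := h1 w (hUD w hw'.1) hw'.2
        refine ⟨h3.1, ?_⟩
        show w = a' 0 ∨ _
        rw [ha', Fin.cons_zero]
        exact h3.2
      · intro b hb
        constructor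
        · intro hp
          have hb' : |b| ≤ D' := hb.trans (by
            have : D ≤ D' := Nat.le_add_right _ _
            exact_mod_cast this)
          refine mem_filter.2 ⟨(hmemU b).2 ?_, hp⟩
          rcases (h1 b hb' hp).2 with h3 | ⟨j, h3, _⟩
          · exact ⟨0, by rw [h3]; exact h0⟩
          · exact ⟨j.succ, h3⟩
        · intro hm
          exact (mem_filter.1 hm).2
    by_contra hcon
    push Not at hcon
    have hfin : (⋃ t, {N : ℕ | R D t N}).Finite := Set.finite_iUnion fun t => hcon t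
    obtain ⟨M, hM⟩ := hfin.bddAbove
    obtain ⟨N, hN, t, ht⟩ := hex (M + 1)
    have h3 := hM (Set.mem_iUnion.2 ⟨t, ht⟩)
    omega
  -- one pattern for all `D`
  obtain ⟨t, ht⟩ : ∃ t, ∀ D : ℕ, {N : ℕ | R D t N}.Infinite := by
    by_contra hcon
    push Not at hcon
    choose D hD using hcon
    obtain ⟨t, ht⟩ := hR (∑ t, D t)
    refine ht ((hD t).subset ?_)
    intro N hN
    obtain ⟨h1, h1', h2, h3, h4⟩ := hN
    refine ⟨h1, h1', h2, h3, fun b hb => h4 b (hb.trans ?_)⟩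
    have h5 : D t ≤ ∑ t, D t :=
      Finset.single_le_sum (f := fun t => D t) (fun _ _ => Nat.zero_le _) (Finset.mem_univ t)
    exact_mod_cast h5
  obtain ⟨N1, hN1⟩ := (ht 0).nonempty
  refine ⟨t.1, fun j => (t.2.1 j : ℤ), t.2.2.1, ?_, ?_, ?_, ?_⟩
  · intro j j' hjj
    by_contra hne
    have h1 := (hN1.2.2.1 j).1
    have h2 := (hN1.2.2.1 j').1
    have h3 := hx3 j j' hne
    have hjj' : (t.2.1 j : ℤ) = (t.2.1 j' : ℤ) := hjj
    rw [hjj'] at h1
    push_cast at h3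
    have h4 : |x j - x j'| ≤ |(t.2.1 j' : ℤ) - x j'| + |(t.2.1 j' : ℤ) - x j| := by
      have e : x j - x j' = ((t.2.1 j' : ℤ) - x j') - ((t.2.1 j' : ℤ) - x j) := by ring
      rw [e]
      exact abs_sub _ _
    linarith
  · intro j
    exact ⟨hnear _ j (hN1.2.2.1 j).1, (hN1.2.2.1 j).2.1, (hN1.2.2.1 j).2.2.1⟩
  · intro w hw
    obtain ⟨h1, h2⟩ := hN1.2.2.2.1 w hw
    refine ⟨h1, ?_⟩
    rcases h2 with h2 | ⟨j, h2, h3⟩
    · exact Or.inl h2
    · exact Or.inr ⟨j, hnear w _ h2, h3⟩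
  · intro D
    refine (ht D).mono ?_
    intro N hN
    obtain ⟨h1, h1', h2, _, h4⟩ := hN
    exact ⟨h1, h1', fun j => (h2 j).2.2.2, fun b hb => h4 b hb⟩

end Pool.Agent.H21.LP
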