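import Pool.Agent.H21.LP.Df
import Pool.Agent.H21.CG.Gap

/-!
[H21 LP GAP2]  Pairs of consecutive gaps in prescribed residue classes.

Proof: that of `gaps` in `Pool/Agent/H21/CG/Gap.lean` (copy it, `gap_next` may be cited), applied to `Good 2` with
`m = ![0, -u₀, v₀]` and the residue `s` of `N`: coprimality of `s`, `s - u₀`, `s + v₀` to `Q`.  With `u'`, `v'` as
there (`≥ 2 T + 1`), the prime before `N + a 0` is `N + q` with `q` within `T` of `x 1 = -u'`; as `q` is neither `a 0`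
nor within `T` of `x 2 = v'`, the `j` of the clause for `w = q` is `0 : Fin 2`, so `q ≡ m 1 = -u₀ (mod Q)`; similarly
`q' ≡ v₀`; `a 0 ≡ 0`.  So `gap n = a 0 - q ≡ u₀`, `gap (n + 1) = q' - a 0 ≡ v₀ (mod Q)`, and the middle prime
`N + a 0 ≡ s (mod Q)`.
-/

namespace Pool.Agent.H21.LP

open Finset Pool.Agent.H30.CP Pool.Agent.H21.CG

theorem gaps2 (Q : ℕ) (hG : Good 2 (fun _ => (0 : Fin 1)) 1 1 Q) (s u₀ v₀ : ℤ)
    (h0 : IsCoprime s (Q : ℤ)) (h1 : IsCoprime (s - u₀) (Q : ℤ)) (h2 : IsCoprime (s + v₀) (Q : ℤ)) :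
    ∃ C : ℕ, ∀ u v : ℕ, {n : ℕ | |(gap n : ℤ) - u| ≤ C ∧ (gap n : ℤ) ≡ u₀ [ZMOD Q] ∧
      |(gap (n + 1) : ℤ) - v| ≤ C ∧ (gap (n + 1) : ℤ) ≡ v₀ [ZMOD Q] ∧
      (Nat.nth Nat.Prime (n + 1) : ℤ) ≡ s [ZMOD Q]}.Infinite := by
  obtain ⟨T, hT⟩ := hG s ![0, -u₀, v₀] (by
    intro j
    fin_cases j
    · show IsCoprime (s + 0) (Q : ℤ)
      rwa [add_zero]
    · show IsCoprime (s + -u₀) (Q : ℤ)
      rwa [← sub_eq_add_neg]
    · exact h2)
  refine ⟨4 * T + 1, fun u v => ?_⟩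
  obtain ⟨u', hu1, hu2, hu3⟩ : ∃ u' : ℤ, (u : ℤ) ≤ u' ∧ 2 * (T : ℤ) + 1 ≤ u' ∧
      u' ≤ u + (2 * T + 1) := by
    refine ⟨max u (2 * T + 1), le_max_left _ _, le_max_right _ _, ?_⟩
    refine max_le ?_ ?_ <;> omega
  obtain ⟨v', hv1, hv2, hv3⟩ : ∃ v' : ℤ, (v : ℤ) ≤ v' ∧ 2 * (T : ℤ) + 1 ≤ v' ∧
      v' ≤ v + (2 * T + 1) := by
    refine ⟨max v (2 * T + 1), le_max_left _ _, le_max_right _ _, ?_⟩
    refine max_le ?_ ?_ <;> omega
  obtain ⟨i, a, Ω, -, ha, hΩ, hinf⟩ := hT ![0, -u', v']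
  have ha0 : |a 0 - 0| ≤ T := (ha 0).1
  have ha1 : |a 1 - -u'| ≤ T := (ha 1).1
  have ha2 : |a 2 - v'| ≤ T := (ha 2).1
  have hm0 : a 0 ≡ 0 [ZMOD Q] := (ha 0).2.1
  rw [abs_le] at ha0 ha1 ha2
  have hΩ' : ∀ w ∈ Ω, (w = a 0 ∨ (|w - -u'| ≤ T ∧ w ≡ -u₀ [ZMOD Q]) ∨
      (|w - v'| ≤ T ∧ w ≡ v₀ [ZMOD Q])) := by
    intro w hw
    rcases (hΩ w hw).2 with h | ⟨j, hj, hj'⟩
    · exact Or.inl h
    · right
      fin_cases j
      · exact Or.inl ⟨hj, hj'⟩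
      · exact Or.inr ⟨hj, hj'⟩
  obtain ⟨q, hq, hqmax⟩ := (Ω.filter (fun w => w < a 0)).exists_max_image id
    ⟨a 1, mem_filter.2 ⟨(ha 1).2.2, by omega⟩⟩
  obtain ⟨q', hq', hqmin⟩ := (Ω.filter (fun w => a 0 < w)).exists_min_image id
    ⟨a 2, mem_filter.2 ⟨(ha 2).2.2, by omega⟩⟩
  rw [mem_filter] at hq hq'
  have hqT : |q - -u'| ≤ T ∧ q ≡ -u₀ [ZMOD Q] := by
    rcases (hΩ' q hq.1) with h1 | h1 | h1
    · exact absurd h1 (ne_of_lt hq.2)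
    · exact h1
    · exfalso
      have h3 := h1.1
      rw [abs_le] at h3
      have := hq.2
      omega
  have hqT' : |q' - v'| ≤ T ∧ q' ≡ v₀ [ZMOD Q] := by
    rcases (hΩ' q' hq'.1) with h1 | h1 | h1
    · exact absurd h1 (ne_of_gt hq'.2)
    · exfalso
      have h3 := h1.1
      rw [abs_le] at h3
      have := hq'.2
      omega
    · exact h1
  obtain ⟨hqT, hqm⟩ := hqT
  obtain ⟨hqT', hqm'⟩ := hqT'
  rw [abs_le] at hqT hqT'
  obtain ⟨D, hD1, hD2⟩ : ∃ D : ℕ, |q| ≤ D ∧ |q'| ≤ D := by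
    refine ⟨q.natAbs + q'.natAbs, ?_, ?_⟩ <;> (rw [abs_le]; omega)
  rw [abs_le] at hD1 hD2
  have hqa := hq.2
  have hqa' := hq'.2
  refine Set.infinite_of_forall_exists_gt fun M => ?_
  obtain ⟨N, ⟨-, hNs, -, hN⟩, hNgt⟩ := (hinf D).exists_gt (D + Nat.nth Nat.Prime M)
  have hNgt' : (D : ℤ) + (Nat.nth Nat.Prime M : ℤ) < N := by exact_mod_cast hNgt
  have hM0 : (0 : ℤ) ≤ (Nat.nth Nat.Prime M : ℤ) := Int.natCast_nonneg _
  have hp : (((N : ℤ) + q).toNat).Prime := (hN q (by rw [abs_le]; omega)).2 hq.1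
  have hp1 : (((N : ℤ) + a 0).toNat).Prime := (hN (a 0) (by rw [abs_le]; omega)).2 (ha 0).2.2
  have hp2 : (((N : ℤ) + q').toNat).Prime := (hN q' (by rw [abs_le]; omega)).2 hq'.1
  have e0 : ((((N : ℤ) + q).toNat : ℕ) : ℤ) = N + q := Int.toNat_of_nonneg (by omega)
  have e1 : ((((N : ℤ) + a 0).toNat : ℕ) : ℤ) = N + a 0 := Int.toNat_of_nonneg (by omega)
  have e2 : ((((N : ℤ) + q').toNat : ℕ) : ℤ) = N + q' := Int.toNat_of_nonneg (by omega)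
  set n := Nat.count Nat.Prime (((N : ℤ) + q).toNat) with hn
  have hn0 : Nat.nth Nat.Prime n = ((N : ℤ) + q).toNat := Nat.nth_count hp
  have hn1 : Nat.nth Nat.Prime (n + 1) = ((N : ℤ) + a 0).toNat := by
    refine gap_next hn0 hp1 (by omega) ?_
    intro r hr1 hr2 hr
    have h1 : ((N : ℤ) + ((r : ℤ) - N)).toNat = r := by
      rw [add_sub_cancel, Int.toNat_natCast]
    have h2 := (hN ((r : ℤ) - N) (by rw [abs_le]; omega)).1 (by rw [h1]; exact hr)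
    have h3 := hqmax _ (mem_filter.2 ⟨h2, by omega⟩)
    simp only [id] at h3
    omega
  have hn2 : Nat.nth Nat.Prime (n + 1 + 1) = ((N : ℤ) + q').toNat := by
    refine gap_next hn1 hp2 (by omega) ?_
    intro r hr1 hr2 hr
    have h1 : ((N : ℤ) + ((r : ℤ) - N)).toNat = r := by
      rw [add_sub_cancel, Int.toNat_natCast]
    have h2 := (hN ((r : ℤ) - N) (by rw [abs_le]; omega)).1 (by rw [h1]; exact hr)
    have h3 := hqmin _ (mem_filter.2 ⟨h2, by omega⟩)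
    simp only [id] at h3
    omega
  have g1 : ((gap n : ℕ) : ℤ) = a 0 - q := by
    unfold gap
    rw [hn1, hn0]
    omega
  have g2 : ((gap (n + 1) : ℕ) : ℤ) = q' - a 0 := by
    unfold gap
    rw [hn2, hn1]
    omega
  refine ⟨n, ⟨?_, ?_, ?_, ?_, ?_⟩, ?_⟩
  · rw [g1, abs_le]
    push_cast
    constructor <;> omega
  · rw [g1]
    have h3 := hm0.sub hqm
    rwa [zero_sub, neg_neg] at h3
  · rw [g2, abs_le]
    push_cast
    constructor <;> omega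
  · rw [g2]
    have h3 := hqm'.sub hm0
    rwa [sub_zero] at h3
  · rw [hn1, e1]
    have h3 := hNs.add hm0
    rwa [add_zero] at h3
  · have h6 : Nat.nth Nat.Prime M < Nat.nth Nat.Prime n := by
      rw [hn0]
      omega
    exact (Nat.nth_lt_nth Nat.infinite_setOfPred_prime).1 h6

end Pool.Agent.H21.LP
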