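import Pool.Agent.H21.LP.Df

/-!
[H21 LP SHIFT]  Reduction to `m 0 = 0` by a translation.

Proof.  By the Chinese remainder theorem there is `e : ℕ` with `L ∣ e` and `(Q : ℤ) ∣ e + m 0` (e.g.
`Nat.chineseRemainder`, or `e = (-(m 0) * b * L) % (Q * L)` with `a * Q + b * L = 1`).  Let `T` be the constant of `h`;
the new one is `T + e`.  Given `x`, `D`, `N0` apply `h` to `x`, `D + e`, `N0`: `N'` with `IsoQ .. (s + m 0) ..`, with
`a₀'`, `i`.  Take `N = N' + e`, `a₀ = a₀' - e`, and `b - e` for the other `b`s: `(N : ℤ) + (b - e) = N' + b`, so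
`PP N (b - e) ↔ PP N' b`; `a₀ ≡ 0 + m 0`, `b - e ≡ (m j - m 0) + m 0`; `|b| ≤ D` gives `|b + e| ≤ D + e`.
-/

namespace Pool.Agent.H21.LP

open Finset Pool.Agent.H30.CP Pool.Agent.H21.CG

variable {r k : ℕ}

private theorem exists_e {L Q : ℕ} (hQ : 0 < Q) (hQL : Nat.Coprime Q L) (m₀ : ℤ) :
    ∃ e : ℕ, L ∣ e ∧ (Q : ℤ) ∣ (e : ℤ) + m₀ := by
  obtain ⟨a, b, hab⟩ : IsCoprime (Q : ℤ) (L : ℤ) := Nat.isCoprime_iff_coprime.2 hQL
  have hQ' : (Q : ℤ) ≠ 0 := by exact_mod_cast hQ.ne'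
  refine ⟨L * ((-m₀ * b) % Q).toNat, Dvd.intro _ rfl, ?_⟩
  push_cast
  rw [Int.toNat_of_nonneg (Int.emod_nonneg _ hQ')]
  have h1 : (-m₀ * b) % Q = -m₀ * b - Q * ((-m₀ * b) / Q) := Int.emod_def _ _
  rw [h1]
  refine ⟨m₀ * a - L * ((-m₀ * b) / Q), ?_⟩
  linear_combination (-m₀) * hab

theorem iso_shift (c : ℕ → Fin r) (L s₀ Q : ℕ) (hL : 0 < L) (hQ : 0 < Q) (hQL : Nat.Coprime Q L)
    (s : ℤ) (m : Fin (k + 1) → ℤ)
    (h : ∃ T : ℕ, ∀ x : Fin (k + 1) → ℤ, ∀ D N0 : ℕ, ∃ N ≥ N0,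
      IsoQ c L s₀ Q (s + m 0) (fun j => m j - m 0) T x D N) :
    ∃ T : ℕ, ∀ x : Fin (k + 1) → ℤ, ∀ D N0 : ℕ, ∃ N ≥ N0, IsoQ c L s₀ Q s m T x D N := by
  obtain ⟨e, hLe, hQe⟩ := exists_e hQ hQL (m 0)
  have hLe' : (L : ℤ) ∣ (e : ℤ) := by exact_mod_cast hLe
  have he0 : (0 : ℤ) ≤ (e : ℤ) := Int.natCast_nonneg e
  obtain ⟨T, hT⟩ := h
  refine ⟨T + e, fun x D N0 => ?_⟩
  obtain ⟨N', hN', h1, h2, a₀, i, h3, h4, h5, h6, h7, h8⟩ := hT x (D + e) N0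
  have hPP : ∀ b : ℤ, PP (N' + e) (b - e) ↔ PP N' b := by
    intro b
    unfold PP
    have h9 : ((N' + e : ℕ) : ℤ) + (b - e) = (N' : ℤ) + b := by push_cast; ring
    rw [h9]
  have hc : ∀ b : ℤ, c (((N' + e : ℕ) : ℤ) + (b - e)).toNat = c ((N' : ℤ) + b).toNat := by
    intro b
    have h9 : ((N' + e : ℕ) : ℤ) + (b - e) = (N' : ℤ) + b := by push_cast; ring
    rw [h9]
  have hmod : ∀ (b n : ℤ), b ≡ n - m 0 [ZMOD Q] → b - e ≡ n [ZMOD Q] := by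
    intro b n hb
    rw [Int.modEq_iff_dvd] at hb ⊢
    have h9 : n - (b - e) = (n - m 0 - b) + (e + m 0) := by ring
    rw [h9]
    exact dvd_add hb hQe
  have hdist : ∀ b y : ℤ, |b - y| ≤ (T : ℤ) → |b - e - y| ≤ ((T + e : ℕ) : ℤ) := by
    intro b y hb
    rw [abs_le] at hb ⊢
    push_cast
    constructor <;> linarith [hb.1, hb.2]
  refine ⟨N' + e, le_trans hN' (Nat.le_add_right _ _), ?_, ?_, a₀ - e, i, hdist a₀ _ h3, ?_, ?_, ?_,
    ?_, ?_⟩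
  · have h9 : e ≡ 0 [MOD L] := (Nat.modEq_zero_iff_dvd).2 hLe
    exact (Nat.ModEq.add h1 h9).trans (by rw [add_zero])
  · rw [Int.modEq_iff_dvd] at h2 ⊢
    have h9 : s - ((N' + e : ℕ) : ℤ) = (s + m 0 - N') - (e + m 0) := by push_cast; ring
    rw [h9]
    exact dvd_sub h2 hQe
  · exact hmod a₀ (m 0) h4
  · exact (hPP a₀).2 h5
  · rw [hc a₀]
    exact h6
  · intro b hb hPb
    have h9 : b = (b + e) - e := by ring
    rw [h9] at hPb
    have h10 : |b + e| ≤ ((D + e : ℕ) : ℤ) := by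
      rw [abs_le] at hb ⊢
      push_cast
      constructor <;> linarith [hb.1, hb.2]
    obtain ⟨h11, h12⟩ := h7 (b + e) h10 ((hPP _).1 hPb)
    refine ⟨?_, ?_⟩
    · have h13 := dvd_sub h11 hLe'
      rwa [add_sub_cancel_right] at h13
    · rcases h12 with h13 | ⟨j, h13, h14⟩
      · left
        rw [← h13]
        ring
      · right
        refine ⟨j, ?_, ?_⟩
        · have h15 := hdist _ _ h13
          rwa [add_sub_cancel_right] at h15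
        · have h15 := hmod _ _ h14
          rwa [add_sub_cancel_right] at h15
  · intro j
    obtain ⟨b, h9, h10, h11, h12⟩ := h8 j
    exact ⟨b - e, hdist _ _ h9, hmod _ _ h10, (hPP b).2 h11, by rw [hc b]; exact h12⟩

end Pool.Agent.H21.LP
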