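import Pool.Agent.H21.LP.Main
import Pool.Agent.H21.LP.Ext
import Pool.Agent.H21.LP.Shift
import Pool.Agent.H21.LP.Adel
import Pool.Agent.H21.LP.Gap2

/-!
[H21 LP FAM]  Of any `20 k r + 1` pairwise coprime moduli one is good; all but finitely many primes are good;
consecutive primes in prescribed residue classes.
-/

namespace Pool.Agent.H21.LP

open Finset Pool.Agent.H30.CP Pool.Agent.H21.CG

variable {r : ℕ}

/-- (A) -/
theorem good_family (k : ℕ) (hk : 1 ≤ k) (c : ℕ → Fin r) (L s₀ : ℕ) (hL : 0 < L)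
    (hs₀ : Nat.Coprime s₀ L) (t : ℕ) (ht : 20 * k * r < t) (Q : Fin t → ℕ) (hQ : ∀ i, 0 < Q i)
    (hQL : ∀ i, Nat.Coprime (Q i) L) (hQQ : ∀ i j, i ≠ j → Nat.Coprime (Q i) (Q j)) :
    ∃ i, Good k c L s₀ (Q i) := by
  by_contra hcon
  push Not at hcon
  unfold Good at hcon
  push Not at hcon
  choose s m hsm hbad using hcon
  obtain ⟨i, T, hT⟩ := isoQ_exists hk c L s₀ hL hs₀ t ht Q hQ hQL hQQ
    (fun i => s i + m i 0) (fun i j => m i j - m i 0) (fun i => sub_self _) (fun i j => by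
      have e : s i + m i 0 + (m i j - m i 0) = s i + m i j := by ring
      rw [e]
      exact hsm i j)
  obtain ⟨T₁, hT₁⟩ := ext_iso c L s₀ (Q i) (s i) (m i)
    (iso_shift c L s₀ (Q i) hL (hQ i) (hQL i) (s i) (m i) ⟨T, hT⟩)
  obtain ⟨x, hx⟩ := hbad i T₁
  obtain ⟨i₁, a, Ω, h1, h2, h3, h4⟩ := hT₁ x
  obtain ⟨D, hD⟩ := hx i₁ a Ω h1 h2 h3
  exact h4 D hD

/-- (B) -/
theorem good_adelic (k : ℕ) (hk : 1 ≤ k) (c : ℕ → Fin r) (L s₀ : ℕ) (hL : 0 < L)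
    (hs₀ : Nat.Coprime s₀ L) :
    ∃ Q₀ : ℕ, 0 < Q₀ ∧ ∀ Q : ℕ, 0 < Q → Nat.Coprime Q Q₀ → Good k c L s₀ Q :=
  adel (fun Q => Good k c L s₀ Q) L (20 * k * r) hL fun Q hQ hQL hQQ =>
    good_family k hk c L s₀ hL hs₀ _ (Nat.lt_succ_self _) Q hQ hQL hQQ

/-- all primes but at most `20 k r` are good -/
theorem good_primes (k : ℕ) (hk : 1 ≤ k) (c : ℕ → Fin r) (L s₀ : ℕ) (hL : 0 < L)
    (hs₀ : Nat.Coprime s₀ L) :
    ∃ E : Finset ℕ, E.card ≤ 20 * k * r ∧ ∀ p : ℕ, p.Prime → Nat.Coprime p L → p ∉ E →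
      ∀ e : ℕ, Good k c L s₀ (p ^ e) := by
  classical
  set S : Set ℕ := {p | p.Prime ∧ Nat.Coprime p L ∧ ∃ e : ℕ, ¬ Good k c L s₀ (p ^ e)} with hS
  have hfin : ∀ F : Finset ℕ, (F : Set ℕ) ⊆ S → F.card ≤ 20 * k * r := by
    intro F hF
    by_contra hcon
    push Not at hcon
    have h1 : ∀ i : Fin F.card, (F.equivFin.symm i).1 ∈ S := fun i => hF (F.equivFin.symm i).2
    choose e he using fun i => (h1 i).2.2
    obtain ⟨i, hi⟩ := good_family k hk c L s₀ hL hs₀ F.card hcon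
      (fun i => (F.equivFin.symm i).1 ^ e i) (fun i => pow_pos (h1 i).1.pos _)
      (fun i => Nat.Coprime.pow_left _ (h1 i).2.1)
      (fun i j hij => by
        refine Nat.Coprime.pow _ _ ((Nat.coprime_primes (h1 i).1 (h1 j).1).2 ?_)
        intro h
        exact hij (F.equivFin.symm.injective (Subtype.ext h)))
    exact he i hi
  have hSf : S.Finite := by
    by_contra hinf
    obtain ⟨F, hF, hFc⟩ := Set.Infinite.exists_subset_card_eq hinf (20 * k * r + 1)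
    have := hfin F hF
    omega
  refine ⟨hSf.toFinset, hfin _ (by simp), fun p hp hpL hpE e => ?_⟩
  by_contra hcon
  exact hpE (hSf.mem_toFinset.2 ⟨hp, hpL, e, hcon⟩)

/-- (C) three consecutive primes in prescribed classes, the two gaps prescribed up to a bounded error -/
theorem three_consecutive : ∃ E : Finset ℕ, E.card ≤ 40 ∧ ∀ p : ℕ, p.Prime → p ∉ E →
    ∀ (e : ℕ) (ρ : Fin 3 → ℤ), (∀ j, ¬ (p : ℤ) ∣ ρ j) → ∃ C : ℕ, ∀ u v : ℕ,
      {n : ℕ | |(gap n : ℤ) - u| ≤ C ∧ |(gap (n + 1) : ℤ) - v| ≤ C ∧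
        ∀ j : Fin 3, (Nat.nth Nat.Prime (n + j) : ℤ) ≡ ρ j [ZMOD (p ^ e : ℕ)]}.Infinite := by
  obtain ⟨E, hE, hG⟩ := good_primes 2 (by norm_num) (fun _ => (0 : Fin 1)) 1 1 one_pos
    (Nat.coprime_one_right 1)
  refine ⟨E, hE.trans (by norm_num), fun p hp hpE e ρ hρ => ?_⟩
  have hcop : ∀ j, IsCoprime (ρ j) ((p ^ e : ℕ) : ℤ) := by
    intro j
    push_cast
    refine IsCoprime.pow_right ?_
    refine IsCoprime.symm ?_
    exact ((Nat.prime_iff_prime_int.1 hp).coprime_iff_not_dvd).2 (hρ j)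
  obtain ⟨C, hC⟩ := gaps2 (p ^ e) (hG p hp (Nat.coprime_one_right p) hpE e) (ρ 1) (ρ 1 - ρ 0)
    (ρ 2 - ρ 1) (hcop 1) (by
      have e1 : ρ 1 - (ρ 1 - ρ 0) = ρ 0 := by ring
      rw [e1]
      exact hcop 0) (by
      have e1 : ρ 1 + (ρ 2 - ρ 1) = ρ 2 := by ring
      rw [e1]
      exact hcop 2)
  refine ⟨C, fun u v => (hC u v).mono fun n hn => ?_⟩
  obtain ⟨h1, h2, h3, h4, h5⟩ := hn
  have hle : ∀ n, ((gap n : ℕ) : ℤ) = (Nat.nth Nat.Prime (n + 1) : ℤ) - Nat.nth Nat.Prime n := by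
    intro n
    have h6 : Nat.nth Nat.Prime n < Nat.nth Nat.Prime (n + 1) :=
      (Nat.nth_strictMono Nat.infinite_setOfPred_prime) (Nat.lt_succ_self n)
    unfold gap
    omega
  refine ⟨h1, h3, fun j => ?_⟩
  fin_cases j
  · have h7 := h5.sub h2
    rw [hle n] at h7
    have e1 : (Nat.nth Nat.Prime (n + 1) : ℤ) - ((Nat.nth Nat.Prime (n + 1) : ℤ) -
        Nat.nth Nat.Prime n) = Nat.nth Nat.Prime n := by ring
    have e2 : ρ 1 - (ρ 1 - ρ 0) = ρ 0 := by ring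
    rw [e1, e2] at h7
    exact h7
  · exact h5
  · have h7 := h5.add h4
    rw [hle (n + 1)] at h7
    have e1 : (Nat.nth Nat.Prime (n + 1) : ℤ) + ((Nat.nth Nat.Prime (n + 1 + 1) : ℤ) -
        Nat.nth Nat.Prime (n + 1)) = Nat.nth Nat.Prime (n + 1 + 1) := by ring
    have e2 : ρ 1 + (ρ 2 - ρ 1) = ρ 2 := by ring
    rw [e1, e2] at h7
    exact h7

end Pool.Agent.H21.LP
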