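import Pool.Agent.H21.LP.Tree
import Pool.Agent.H21.LP.Cell
import Pool.Agent.H21.LP.Crt

/-!
[H21 LP MAIN]  Of any `20 k r + 1` pairwise coprime moduli one is good (case `m 0 = 0`, existence of `N`).
-/

namespace Pool.Agent.H21.LP

open Finset Pool.Agent.H30.CP Pool.Agent.H21.CG

variable {r k : ℕ}

/-- admissibility at the large primes -/
theorem adm_big (K : ℕ) {ι : Type} [Fintype ι] (V : ι → Finset ℤ) (hV : ∑ j, (V j).card ≤ K)
    (p : ℕ) (hp : p.Prime) (hpK : ¬ p ≤ K) : ∃ a : ℤ, ∀ j, ∀ h ∈ V j, ¬ (p : ℤ) ∣ a + h := by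
  classical
  have hp0 : (0 : ℤ) < p := by exact_mod_cast hp.pos
  set E : Finset ℕ := (univ.biUnion V).image (fun h : ℤ => ((-h) % p).toNat) with hE
  have hEcard : E.card ≤ K := card_image_le.trans (card_biUnion_le.trans hV)
  obtain ⟨a, ha, haE⟩ : ∃ a ∈ range p, a ∉ E := by
    by_contra hcon2
    push Not at hcon2
    have h1 : (range p).card ≤ E.card := card_le_card hcon2
    rw [card_range] at h1
    omega
  refine ⟨(a : ℤ), fun d h hh hdv => haE ?_⟩
  rw [hE, mem_image]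
  refine ⟨h, mem_biUnion.2 ⟨d, mem_univ _, hh⟩, ?_⟩
  have h1 : (-h) % (p : ℤ) = (a : ℤ) % (p : ℤ) := by
    apply Int.emod_eq_emod_iff_emod_sub_eq_zero.2
    rw [← Int.dvd_iff_emod_eq_zero]
    have e : -h - a = -((a : ℤ) + h) := by ring
    rw [e]
    exact (dvd_neg).2 hdv
  rw [h1, Int.emod_eq_of_lt (Int.natCast_nonneg a) (by exact_mod_cast mem_range.1 ha)]
  simp

private theorem cop_of_dvd {a b n : ℤ} (h : IsCoprime a n) (hd : n ∣ b - a) : IsCoprime b n := by
  obtain ⟨t, ht⟩ := hd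
  have e : b = a + n * t := by linarith
  rw [e]
  exact h.add_mul_left_left t

theorem isoQ_exists (hk : 1 ≤ k) (c : ℕ → Fin r) (L s₀ : ℕ) (hL : 0 < L)
    (hs₀ : Nat.Coprime s₀ L) (t : ℕ) (ht : 20 * k * r < t) (Q : Fin t → ℕ) (hQ : ∀ i, 0 < Q i)
    (hQL : ∀ i, Nat.Coprime (Q i) L) (hQQ : ∀ i j, i ≠ j → Nat.Coprime (Q i) (Q j))
    (s : Fin t → ℤ) (m : Fin t → Fin (k + 1) → ℤ)
    (hm0 : ∀ i, m i 0 = 0) (hadm : ∀ i j, IsCoprime (s i + m i j) (Q i : ℤ)) :
    ∃ i, ∃ T : ℕ, ∀ x : Fin (k + 1) → ℤ, ∀ D N0 : ℕ, ∃ N ≥ N0,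
      IsoQ c L s₀ (Q i) (s i) (m i) T x D N := by
  classical
  by_contra hcon
  have hbad : ∀ i, Bad c L s₀ (Q i) (s i) (m i) := by
    push Not at hcon
    intro i T
    exact hcon i T
  have hkR : (1 : ℝ) ≤ k := by exact_mod_cast hk
  have hmm0 : 1 ≤ Fintype.card (Ix k t) := by
    obtain ⟨n, hn⟩ : ∃ n : ℕ, t = n + 1 := ⟨t - 1, by omega⟩
    rw [hn]
    exact Fintype.card_pos_iff.2 ⟨(none : Option (Fin k × Ix k n))⟩
  obtain ⟨mm, hmm⟩ : ∃ mm : ℕ, mm = Fintype.card (Ix k t) := ⟨_, rfl⟩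
  have hmm1 : 1 ≤ mm := by
    rw [hmm]
    exact hmm0
  obtain ⟨sc, hsc, hcells⟩ := cellsQ mm hmm1
  set K : ℕ := mm * sc with hK
  set M : ℕ := L * ∏ i, Q i with hM
  have hM0 : 0 < M := Nat.mul_pos hL (Finset.prod_pos fun i _ => hQ i)
  set W : ℕ := M * K.factorial with hW
  have hW0 : 0 < W := Nat.mul_pos hM0 (Nat.factorial_pos K)
  have hW0Z : (0 : ℤ) < W := by exact_mod_cast hW0
  have hLM : L ∣ M := dvd_mul_right _ _
  have hQM : ∀ i, Q i ∣ M := fun i => dvd_mul_of_dvd_right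
    (Finset.dvd_prod_of_mem Q (mem_univ i)) L
  have hMW : M ∣ W := dvd_mul_right _ _
  choose u hu1 hu2 hu3 hu4 using fun i => crt_exists L t Q hQL hQQ K i
  set B0 : Finset ℤ := (range sc).image (fun i : ℕ => (W : ℤ) * (i : ℤ)) with hB0
  have hB0W : ∀ β ∈ B0, (W : ℤ) ∣ β := by
    intro β hβ
    rw [hB0, mem_image] at hβ
    obtain ⟨i, _, rfl⟩ := hβ
    exact dvd_mul_right _ _
  have hB0card : B0.card = sc := by
    rw [hB0, card_image_of_injective, card_range]
    intro i j hij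
    have h1 : (W : ℤ) * (i : ℤ) = (W : ℤ) * (j : ℤ) := hij
    exact_mod_cast mul_left_cancel₀ hW0Z.ne' h1
  -- the data indexed by natural numbers
  let Q' : ℕ → ℕ := fun i => if h : i < t then Q ⟨i, h⟩ else 1
  let s' : ℕ → ℤ := fun i => if h : i < t then s ⟨i, h⟩ else 0
  let m' : ℕ → Fin (k + 1) → ℤ := fun i => if h : i < t then m ⟨i, h⟩ else 0
  let u' : ℕ → ℤ := fun i => if h : i < t then u ⟨i, h⟩ else 0
  have hQ' : ∀ i (h : i < t), Q' i = Q ⟨i, h⟩ := fun i h => dif_pos h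
  have hs' : ∀ i (h : i < t), s' i = s ⟨i, h⟩ := fun i h => dif_pos h
  have hm' : ∀ i (h : i < t), m' i = m ⟨i, h⟩ := fun i h => dif_pos h
  have hu' : ∀ i (h : i < t), u' i = u ⟨i, h⟩ := fun i h => dif_pos h
  obtain ⟨pos, ω, ⟨D, N0, hpot⟩, hω0, hω1, hposf, hposD⟩ :=
    potQ_exists (c := c) (L := L) (s₀ := s₀) hk t Q' s' m' u'
      (fun i hi => by rw [hm' i hi]; exact hm0 _)
      (fun i hi => by rw [hQ' i hi, hs' i hi, hm' i hi]; exact hbad _)
      W hW0 (hLM.trans hMW) (fun i hi => by rw [hQ' i hi]; exact (hQM _).trans hMW)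
      (fun i hi => by rw [hQ' i hi, hu' i hi]; exact hu1 _)
      (fun i hi j hj hji => by
        rw [hQ' j hj, hu' i hi]
        exact hu2 ⟨i, hi⟩ ⟨j, hj⟩ (fun h => hji (congrArg Fin.val h)))
      (fun i hi => by rw [hu' i hi]; exact hu3 _) B0 hB0W t le_rfl
  set V : Ix k t → Finset ℤ := fun d => cell B0 (pos d) with hV
  -- the elements of the cells
  have hVf : ∀ d, ∀ h ∈ V d, ∃ f : Fin t → Fin (k + 1), (W : ℤ) ∣ h - ∑ i, u i * m i (f i) := by
    intro d h hh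
    obtain ⟨β, hβ, rfl⟩ := mem_cell.1 hh
    obtain ⟨f, hf⟩ := hposf d
    refine ⟨fun i => f i, ?_⟩
    have h1 : ∑ i ∈ range t, u' i * m' i (f i) = ∑ i : Fin t, u i * m i (f i) := by
      rw [Finset.sum_range]
      refine Finset.sum_congr rfl fun i _ => ?_
      rw [hu' i i.2, hm' i i.2]
    rw [h1] at hf
    have e : β + pos d - ∑ i : Fin t, u i * m i (f i) =
        β + (pos d - ∑ i : Fin t, u i * m i (f i)) := by ring
    rw [e]
    exact dvd_add (hB0W β hβ) hf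
  -- the class of `N`
  set C : ℤ := s₀ + ∑ i, (s i - s₀) * u i with hC
  have hCL : (L : ℤ) ∣ C - s₀ := by
    have e : C - s₀ = ∑ i, (s i - s₀) * u i := by
      rw [hC]
      ring
    rw [e]
    exact Finset.dvd_sum fun i _ => dvd_mul_of_dvd_right (hu3 i) _
  have hCQ : ∀ i, (Q i : ℤ) ∣ C - s i := by
    intro i
    have e : C - s i = (s i - s₀) * (u i - 1) +
        ∑ j ∈ univ.erase i, (s j - s₀) * u j := by
      rw [hC, ← Finset.add_sum_erase univ (fun j => (s j - s₀) * u j) (mem_univ i)]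
      ring
    rw [e]
    refine dvd_add (dvd_mul_of_dvd_right (hu1 i) _) (Finset.dvd_sum fun j hj => ?_)
    exact dvd_mul_of_dvd_right (hu2 j i (fun h => (mem_erase.1 hj).1 h.symm)) _
  have hM0Z : (0 : ℤ) < M := by exact_mod_cast hM0
  obtain ⟨c₀, hc₀⟩ : ∃ c₀ : ℕ, (c₀ : ℤ) = C % M :=
    ⟨(C % M).toNat, Int.toNat_of_nonneg (Int.emod_nonneg _ hM0Z.ne')⟩
  have hc₀M : (M : ℤ) ∣ c₀ - C := by
    rw [hc₀]
    have h1 : (M : ℤ) ∣ C - C % M := Int.dvd_self_sub_emod
    have e : C % M - C = -(C - C % M) := by ring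
    rw [e]
    exact (dvd_neg).2 h1
  have hLMz : (L : ℤ) ∣ (M : ℤ) := by exact_mod_cast hLM
  have hQMz : ∀ i, (Q i : ℤ) ∣ (M : ℤ) := fun i => by exact_mod_cast hQM i
  have hMWz : (M : ℤ) ∣ (W : ℤ) := by exact_mod_cast hMW
  have hc₀L : (L : ℤ) ∣ c₀ - s₀ := by
    have h1 := dvd_add (hLMz.trans hc₀M) hCL
    have e : (c₀ : ℤ) - C + (C - s₀) = c₀ - s₀ := by ring
    rwa [e] at h1
  have hc₀Q : ∀ i, (Q i : ℤ) ∣ c₀ - s i := by
    intro i
    have h1 := dvd_add ((hQMz i).trans hc₀M) (hCQ i)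
    have e : (c₀ : ℤ) - C + (C - s i) = c₀ - s i := by ring
    rwa [e] at h1
  have hcop : ∀ d, ∀ h ∈ V d, IsCoprime ((c₀ : ℤ) + h) (M : ℤ) := by
    intro d h hh
    obtain ⟨f, hf⟩ := hVf d h hh
    have hfL : (L : ℤ) ∣ h := by
      have h1 : (L : ℤ) ∣ ∑ i, u i * m i (f i) :=
        Finset.dvd_sum fun i _ => dvd_mul_of_dvd_left (hu3 i) _
      have h2 := dvd_add ((hLMz.trans hMWz).trans hf) h1
      have e : h - ∑ i, u i * m i (f i) + ∑ i, u i * m i (f i) = h := by ring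
      rwa [e] at h2
    have hfQ : ∀ i, (Q i : ℤ) ∣ h - m i (f i) := by
      intro i
      have h1 : (Q i : ℤ) ∣ ∑ i, u i * m i (f i) - m i (f i) := by
        have e : ∑ j, u j * m j (f j) - m i (f i) = (u i - 1) * m i (f i) +
            ∑ j ∈ univ.erase i, u j * m j (f j) := by
          rw [← Finset.add_sum_erase univ (fun j => u j * m j (f j)) (mem_univ i)]
          ring
        rw [e]
        refine dvd_add (dvd_mul_of_dvd_left (hu1 i) _) (Finset.dvd_sum fun j hj => ?_)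
        exact dvd_mul_of_dvd_left (hu2 j i (fun h => (mem_erase.1 hj).1 h.symm)) _
      have h2 := dvd_add (((hQMz i).trans hMWz).trans hf) h1
      have e : h - ∑ i, u i * m i (f i) + (∑ i, u i * m i (f i) - m i (f i)) = h - m i (f i) := by
        ring
      rwa [e] at h2
    rw [hM]
    push_cast
    refine IsCoprime.mul_right ?_ (IsCoprime.prod_right fun i _ => ?_)
    · refine cop_of_dvd (Nat.isCoprime_iff_coprime.2 hs₀) ?_
      have h1 := dvd_add hc₀L hfL
      have e : (c₀ : ℤ) - s₀ + h = c₀ + h - s₀ := by ring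
      rwa [e] at h1
    · refine cop_of_dvd (hadm i (f i)) ?_
      have h1 := dvd_add (hc₀Q i) (hfQ i)
      have e : (c₀ : ℤ) - s i + (h - m i (f i)) = c₀ + h - (s i + m i (f i)) := by ring
      rwa [e] at h1
  have hVcard : ∀ d, (V d).card = sc := by
    intro d
    show (B0.image (fun β => β + pos d)).card = sc
    rw [card_image_of_injective _ (add_left_injective _), hB0card]
  have hVsum : ∑ d, (V d).card ≤ K := by
    rw [Finset.sum_congr rfl fun d _ => hVcard d, sum_const, card_univ, smul_eq_mul, ← hmm]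
  have hVadm : ∀ p : ℕ, p.Prime → ∃ a : ℤ, ∀ d, ∀ h ∈ V d, ¬ (p : ℤ) ∣ a + h := by
    intro p hp
    by_cases hpM : p ∣ M
    · refine ⟨c₀, fun d h hh hdv => ?_⟩
      have hpMz : (p : ℤ) ∣ (M : ℤ) := by exact_mod_cast hpM
      have h1 := (hcop d h hh).isUnit_of_dvd' hdv hpMz
      have h2 : p = 1 := by exact_mod_cast Int.isUnit_iff_natAbs_eq.1 h1
      exact hp.one_lt.ne' h2
    · by_cases hpK : p ≤ K
      · refine ⟨1, fun d h hh hdv => ?_⟩
        obtain ⟨f, hf⟩ := hVf d h hh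
        have hpW : (p : ℤ) ∣ (W : ℤ) := by
          have h2 : p ∣ W := dvd_mul_of_dvd_right (Nat.dvd_factorial hp.pos hpK) M
          exact_mod_cast h2
        have h1 : (p : ℤ) ∣ ∑ i, u i * m i (f i) :=
          Finset.dvd_sum fun i _ => dvd_mul_of_dvd_left
            (hu4 i p hp hpK (fun h => hpM (h.trans (hQM i)))) _
        have h2 := dvd_add (hpW.trans hf) h1
        have e : h - ∑ i, u i * m i (f i) + ∑ i, u i * m i (f i) = h := by ring
        rw [e] at h2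
        have h4 : (p : ℤ) ∣ 1 := (dvd_add_left h2).1 hdv
        have h5 : p ∣ 1 := by exact_mod_cast h4
        exact hp.one_lt.ne' (Nat.dvd_one.1 h5)
      · exact adm_big K V hVsum p hp hpK
  obtain ⟨T, μ, hT, hμ, hsum, hone⟩ := hcells (Ix k t) V hmm.symm hVcard (by
      intro d d' hdd
      rw [disjoint_left]
      intro h hh hh'
      obtain ⟨β, hβ, rfl⟩ := mem_cell.1 hh
      obtain ⟨β', hβ', he⟩ := mem_cell.1 hh'
      exact hposD d d' hdd β hβ β' hβ' he.symm)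
    hVadm M c₀ hM0 hcop D N0
  -- double counting
  have h1 : ∑ N ∈ T, μ N * ∑ d, (if CG.One N (V d) then ω d else 0) ≤ r := by
    calc ∑ N ∈ T, μ N * ∑ d, (if CG.One N (V d) then ω d else 0) ≤ ∑ N ∈ T, μ N * (r : ℝ) := by
          refine Finset.sum_le_sum fun N hN => ?_
          refine mul_le_mul_of_nonneg_left ?_ (hμ N)
          obtain ⟨h2, h3, h4⟩ := hT N hN
          have h3M : (M : ℤ) ∣ N - c₀ := by
            have h5 : (c₀ : ℤ) ≡ (N : ℤ) [ZMOD M] := (Int.natCast_modEq_iff.2 h3).symm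
            exact (Int.modEq_iff_dvd).1 h5
          have h3L : N ≡ s₀ [MOD L] := by
            rw [← Int.natCast_modEq_iff, Int.modEq_comm, Int.modEq_iff_dvd]
            have h6 := dvd_add (hLMz.trans h3M) hc₀L
            have e : (N : ℤ) - c₀ + (c₀ - s₀) = N - s₀ := by ring
            rwa [e] at h6
          have h3Q : ∀ i < t, (N : ℤ) ≡ s' i [ZMOD Q' i] := by
            intro i hi
            rw [hQ' i hi, hs' i hi, Int.modEq_comm, Int.modEq_iff_dvd]
            have h6 := dvd_add ((hQMz ⟨i, hi⟩).trans h3M) (hc₀Q ⟨i, hi⟩)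
            have e : (N : ℤ) - c₀ + (c₀ - s ⟨i, hi⟩) = N - s ⟨i, hi⟩ := by ring
            rwa [e] at h6
          have h5 := hpot N h2.le h3L h3Q (by
            intro b hb hp
            obtain ⟨d, hd⟩ := h4 b hb hp
            obtain ⟨β, hβ, he⟩ := mem_cell.1 hd
            exact ⟨d, β, hβ, he.symm⟩)
          refine h5.trans ?_
          have h6 := card_le_univ (univ.filter (fun i : Fin r => Al c B0 pos N i))
          rw [Fintype.card_fin] at h6
          exact_mod_cast h6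
      _ = r := by rw [← Finset.sum_mul, hsum, one_mul]
  have h2 : ∑ N ∈ T, μ N * ∑ d, (if CG.One N (V d) then ω d else 0) =
      ∑ d, ω d * ∑ N ∈ T.filter (fun N => CG.One N (V d)), μ N := by
    simp_rw [Finset.mul_sum, Finset.sum_filter]
    rw [Finset.sum_comm]
    refine Finset.sum_congr rfl fun d _ => Finset.sum_congr rfl fun N _ => ?_
    split_ifs
    · ring
    · ring
  have h3 : ∑ d, ω d * (1 / 20) ≤ ∑ d, ω d * ∑ N ∈ T.filter (fun N => CG.One N (V d)), μ N :=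
    Finset.sum_le_sum fun d _ => mul_le_mul_of_nonneg_left (hone d) (hω0 d)
  rw [← Finset.sum_mul, hω1] at h3
  have h4 : (((t : ℕ) : ℝ) / k) * (1 / 20) ≤ r := by linarith
  have h5 : 20 * (k : ℝ) * r + 1 ≤ (t : ℝ) := by exact_mod_cast ht
  rw [div_mul_eq_mul_div, div_le_iff₀ (by linarith)] at h4
  linarith

end Pool.Agent.H21.LP
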